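import Pool.Agent.H12.VZ.Assem

/-!
# Voisin's conjecture for isotrivial elliptic surfaces

`k` is an algebraically closed field of characteristic zero, `X` is a smooth projective curve with
the function field `K₁` and an action of the finite abelian group `G`, and `E` is an elliptic curve
with the function field `K₂`, on which `G` acts through a character `ψ` with values in the roots of
unity of order `d = 2, 3, 4, 6`:

* `d = 2`: `E : v ^ 2 = τ (τ - 1) (τ - c)`, `c ≠ 0, 1` (an arbitrary elliptic curve);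
* `d = 3`: `E : v ^ 3 = τ (τ - 1)`, `d = 6`: `E : v ^ 6 = τ ^ 3 (τ - 1) ^ 2` (`j = 0`);
* `d = 4`: `E : v ^ 4 = τ ^ 2 (τ - 1)` (`j = 1728`),

with `s v = ψ(s) v` and the field of invariants `F₂ = k(τ)`. The surfaces `S = (X × E) / G` are, up to
birational equivalence, the isotrivial elliptic surfaces with a section over the curves `X / G` which
are not products: the surfaces `y ^ 2 = x ^ 3 + f(t)`, `y ^ 2 = x ^ 3 + f(t) x` and the quadratic twists of
constant elliptic curves; an element of `G` with a fixed point on `X` and `ψ ≠ 1` gives a singular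
fibre.

We prove Voisin's conjecture on zero-cycles for all these surfaces with a singular fibre: for
`n > p_g(S)` and Albanese-trivial zero-cycles `z_1, …, z_n` on `S` the alternating sum of the products
`z_σ(1) × ⋯ × z_σ(n)` is rationally equivalent to zero on `S ^ n` (rational coefficients).
For the K3 surfaces `y ^ 2 = x ^ 3 + f(t)`, `deg f = 12`, and `y ^ 2 = x ^ 3 + f(t) x`, `deg f = 8`, in
particular `z_1 × z_2 = z_2 × z_1` (for the first family this is a theorem of Bolognesi and Laterveer, A
9-dimensional family of K3 surfaces with finite dimensional motive).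

The main point of the proof (`d = 3, 4, 6`, `1/p + 1/q + 1/d = 1`): a functional on the zero-cycles on
`X ^ n × E` which is symmetric in the points of `X` and transforms by opposite characters of `G` on `X`
and `E` lives on the hypersurface `F = A ^ p - B ^ q` in a weighted projective bundle over the symmetric
power of `X / G`, which is covered by suitable rational curves if `n > p_g(S)`; they are found as
solutions of more unknowns than equations.
-/

set_option autoImplicit false

namespace Pool.Agent.Results.MP_83b46e_ag.IsotrivialEllipticSurfaces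

open FF Pool.Agent.Q70.CH Pool.Agent.H25.VO Pool.Agent.H12.VZ

section defs

variable {k : Type} [Field k] {K₁ K₂ : Type} [Field K₁] [Algebra k K₁] [Field K₂] [Algebra k K₂]
  {G : Type} [CommGroup G] (a₁ : G →* (K₁ ≃ₐ[k] K₁)) (a₂ : G →* (K₂ ≃ₐ[k] K₂))

/-- The points of the surface `S = (X × E) / G`: the orbits of the diagonal action of `G` on the
points of `X × E`. -/
abbrev Surf : Type := Quotient (orb a₁ a₂)

/-- The geometric genus of `(X × E) / G`: the dimension of the space
`⊕_χ H⁰(X, K_X)_χ ⊗ H⁰(E, K_E)_{χ⁻¹}` of the regular invariant two-forms on `X × E`. -/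
noncomputable def pg : Cardinal :=
  Cardinal.sum fun χ : G →* kˣ =>
    Module.rank k (Eigenforms a₁ χ) * Module.rank k (Eigenforms a₂ χ⁻¹)

/-- The pull-back of a zero-cycle on `(X × E) / G` to `X × E`: the orbit of `p` goes to
`∑ g, g p`. -/
noncomputable def pull [Fintype G] (z : Surf a₁ a₂ →₀ ℚ) : (Place k K₁ × Place k K₂) →₀ ℚ :=
  ∑ g : G, z.mapDomain fun s => act₂ a₁ a₂ g s.out

/-- A zero-cycle on `(X × E) / G` is Albanese-trivial if its pull-back to `X × E` is: the
push-forwards of the pull-back to `X` and to `E` are rationally equivalent to zero. -/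
def AlbTrivial [CharZero k] [Fintype G] (z : Surf a₁ a₂ →₀ ℚ) : Prop :=
  (pull a₁ a₂ z).mapDomain Prod.fst ∈ ratTriv (curve (k := k) K₁) ∧
    (pull a₁ a₂ z).mapDomain Prod.snd ∈ ratTriv (curve (k := k) K₂)

/-- The zero-cycles on `((X × E) / G)^n` rationally equivalent to zero: the push-forwards of the
zero-cycles on `(X × E)^n` rationally equivalent to zero. -/
noncomputable def ratTrivQuot [CharZero k] (n : ℕ) : Submodule ℚ ((Fin n → Surf a₁ a₂) →₀ ℚ) :=
  (ratTriv (((curve (k := k) K₁).prod (curve (k := k) K₂)).pow (Fin n))).map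
    (Finsupp.lmapDomain ℚ ℚ fun v i => (Quotient.mk (orb a₁ a₂) (v i) : Surf a₁ a₂))

end defs

/-- **Voisin's conjecture for isotrivial elliptic surfaces** `S = (X × E) / G` with a singular
fibre. -/
theorem result {k : Type} [Field k] [CharZero k] [IsAlgClosed k] {K₁ K₂ F₁ F₂ : Type} [Field K₁]
    [Algebra k K₁] [IsFF k K₁] [Field K₂] [Algebra k K₂] [IsFF k K₂] [Field F₁] [Algebra k F₁]
    [IsFF k F₁] [Field F₂] [Algebra k F₂] [IsFF k F₂] [Algebra F₁ K₁] [IsScalarTower k F₁ K₁]
    [Algebra F₂ K₂] [IsScalarTower k F₂ K₂] {G : Type} [CommGroup G] [Fintype G]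
    (a₁ : G →* (K₁ ≃ₐ[k] K₁)) (a₂ : G →* (K₂ ≃ₐ[k] K₂)) (hX : IsQuot a₁ F₁) (ψ : G →* kˣ)
    (hE : IsEll a₂ F₂ ψ) (hs : ∃ (P : Place k K₁) (u : G), act a₁ u P = P ∧ ψ u ≠ 1)
    (n : ℕ) (hn : pg a₁ a₂ < n) (z : Fin n → (Surf a₁ a₂ →₀ ℚ))
    (hz : ∀ i, AlbTrivial a₁ a₂ (z i)) : alt z ∈ ratTrivQuot a₁ a₂ n := by
  classical
  have hq₂ : IsQuot a₂ F₂ := by
    obtain ⟨τ, v, ⟨c, -, -, hM⟩ | hM | hM | hM⟩ := hE
    all_goals exact hM.quot
  have hn' : Module.rank k (Eigenforms a₁ ψ⁻¹) * Module.rank k (Eigenforms a₂ ψ) < n := by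
    refine lt_of_le_of_lt ?_ hn
    have h1 : Module.rank k (Eigenforms a₁ ψ⁻¹) * Module.rank k (Eigenforms a₂ ψ⁻¹⁻¹) ≤ pg a₁ a₂ :=
      Cardinal.le_sum (fun χ : G →* kˣ =>
        Module.rank k (Eigenforms a₁ χ) * Module.rank k (Eigenforms a₂ χ⁻¹)) ψ⁻¹
    rwa [hom_inv_inv] at h1
  have h3 : ∀ i, ∑ g : G, ((z i).mapDomain Quotient.out).mapDomain (act₂ a₁ a₂ g) =
      pull a₁ a₂ (z i) := by
    intro i
    unfold pull
    apply Finset.sum_congr rfl
    intro g _
    rw [← Finsupp.mapDomain_comp]; rfl
  have key := voisin_quotient' hX hq₂ (all_cases hE hX hs hn')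
    (fun i => (z i).mapDomain Quotient.out)
    (fun i => by rw [h3]; exact (hz i).1) (fun i => by rw [h3]; exact (hz i).2)
  have h4 : (fun i => ((z i).mapDomain Quotient.out).mapDomain (Quotient.mk (orb a₁ a₂))) = z := by
    funext i
    rw [← Finsupp.mapDomain_comp]
    have : (Quotient.mk (orb a₁ a₂) ∘ Quotient.out) = id := by
      funext s; exact Quotient.out_eq s
    rw [this, Finsupp.mapDomain_id]
  rw [h4] at key
  exact key

end Pool.Agent.Results.MP_83b46e_ag.IsotrivialEllipticSurfaces
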