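import Pool.Agent.H25.VN.N15

/-!
# Voisin's conjecture for quotients of products of two curves by finite groups

`k` is an algebraically closed field of characteristic zero, `X` and `Y` are the smooth projective
curves with function fields `K₁`, `K₂`, and the finite group `G` acts on both. Let the irreducible
characters of `G` be induced by linear characters `χ_j` of subgroups `H_j` (every supersolvable group,
for example every nilpotent group, has this property). We prove Voisin's conjecture on zero-cycles for
the surface `S = (X × Y) / G` if each nontrivial `χ_j` is *balanced* on `X` and on `Y`: the branch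
points of the `χ_j`-part of the covering `X → X / H_j` exist and can be grouped into pairs with
opposite exponents. This is automatic if `χ_j` is inverted by an element `t` of the normalizer of
`H_j`, `t²` in `H_j`, and is ramified: the involution of `X / H_j` given by `t` maps branch points to
branch points with the opposite exponents, and the number of the branch points which it fixes is
even. So all product quotients by generalized quaternion groups such that all nontrivial `χ_j` are
ramified on both curves are covered; the representations of these groups are of quaternionic type.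
(For real orthogonal representations the conjecture was known, see `RealProductQuotients` in the
library; for abelian groups the theorem is our former result on abelian product quotients.)

The proof. Let `Φ` be a functional on the points of `(X × Y)^n` which vanishes on the cycles
rationally equivalent to zero. After a normalization and averaging over `G^n` it is a combination of
translates of functionals `Ψ` on which, in the `i`-th factor, the subgroup `H_j` of the first copy of
`G` acts by `χ_j⁻¹` and that of the second copy by `χ_j`, `j = j(i)`. A symmetric functional of this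
kind on `X^c` vanishes if `c > h⁰(X, K_X)_{χ_j}`: since the branch points of the `χ_j`-part of
`X → X / H_j` can be grouped into pairs with opposite exponents, there are enough rational curves in
the symmetric powers of `X` on which the functional has to be constant; by the Chevalley-Weil formula
the number `c` is the right one. So by the representation theory of the symmetric group the
alternating sum of `Ψ` over `n > ∑_j h⁰(X, K_X)_{χ_j} h⁰(Y, K_Y)_{χ_j⁻¹} = p_g(S)` factors vanishes.
-/

set_option autoImplicit false

namespace Pool.Agent.Results.MP_83b46e_ag.MonomialProductQuotients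

open FF Pool.Agent.Q70.CH Pool.Agent.H25.VN
open Pool.Agent.H25.VO (alt)

section defs

variable {k : Type} [Field k] {K₁ K₂ : Type} [Field K₁] [Algebra k K₁] [Field K₂] [Algebra k K₂]
  {G : Type} [Group G] (a₁ : G →* (K₁ ≃ₐ[k] K₁)) (a₂ : G →* (K₂ ≃ₐ[k] K₂))

/-- The points of the surface `S = (X × Y) / G`: the orbits of the diagonal action of `G` on the
points of `X × Y`. -/
abbrev Surf : Type := Quotient (orb a₁ a₂)

/-- The geometric genus of `(X × Y) / G`: the dimension of the space of the invariants in
`H⁰(X, K_X) ⊗ H⁰(Y, K_Y)`, the regular `G`-invariant two-forms on `X × Y`. -/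
noncomputable def pg : Cardinal := Module.rank k (Submodule.span k {w | IsInvariant a₁ a₂ w})

/-- The pull-back of a zero-cycle on `(X × Y) / G` to `X × Y`: the orbit of `p` goes to
`∑ g, g p`. -/
noncomputable def pull [Fintype G] (z : Surf a₁ a₂ →₀ ℚ) : (Place k K₁ × Place k K₂) →₀ ℚ :=
  ∑ g : G, z.mapDomain fun s => act₂ a₁ a₂ g s.out

/-- A zero-cycle on `(X × Y) / G` is Albanese-trivial if its pull-back to `X × Y` is: the
push-forwards of the pull-back to `X` and to `Y` are rationally equivalent to zero. -/
def AlbTrivial [CharZero k] [Fintype G] (z : Surf a₁ a₂ →₀ ℚ) : Prop :=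
  (pull a₁ a₂ z).mapDomain Prod.fst ∈ ratTriv (curve (k := k) K₁) ∧
    (pull a₁ a₂ z).mapDomain Prod.snd ∈ ratTriv (curve (k := k) K₂)

/-- The zero-cycles on `((X × Y) / G)^n` rationally equivalent to zero: the push-forwards of the
zero-cycles on `(X × Y)^n` rationally equivalent to zero. -/
noncomputable def ratTrivQuot [CharZero k] (n : ℕ) : Submodule ℚ ((Fin n → Surf a₁ a₂) →₀ ℚ) :=
  (ratTriv (((curve (k := k) K₁).prod (curve (k := k) K₂)).pow (Fin n))).map
    (Finsupp.lmapDomain ℚ ℚ fun v i => (Quotient.mk (orb a₁ a₂) (v i) : Surf a₁ a₂))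

/-- The characters of `G` induced by the `χ j` are the irreducible characters of `G`, each occurring
once; equivalently, `∑_j χ_j^G(1) χ_j^G` is the character of the regular representation. -/
def IsTable [Fintype G] {J : Type} [Fintype J] (H : J → Subgroup G) (χ : ∀ j, H j →* kˣ) : Prop :=
  (∑ j, indChar (χ j) 1 * indChar (χ j) 1 = (Fintype.card G : k)) ∧
    ∀ s : G, s ≠ 1 → ∑ j, indChar (χ j) 1 * indChar (χ j) s = 0

end defs

/-- **Voisin's conjecture for `S = (X × Y) / G`**, `G` a finite group. -/
theorem result {k : Type} [Field k] [CharZero k] [IsAlgClosed k] {K₁ K₂ : Type} [Field K₁]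
    [Algebra k K₁] [IsFF k K₁] [Field K₂] [Algebra k K₂] [IsFF k K₂] {G : Type} [Group G]
    [Fintype G] (a₁ : G →* (K₁ ≃ₐ[k] K₁)) (a₂ : G →* (K₂ ≃ₐ[k] K₂)) {J : Type} [Fintype J]
    (H : J → Subgroup G) (χ : ∀ j, H j →* kˣ) (htab : IsTable H χ)
    (h₁ : ∀ j, χ j ≠ 1 → Balanced a₁ (χ j)) (h₂ : ∀ j, χ j ≠ 1 → Balanced a₂ (χ j))
    (n : ℕ) (hn : pg a₁ a₂ < n) (z : Fin n → (Surf a₁ a₂ →₀ ℚ))
    (hz : ∀ i, AlbTrivial a₁ a₂ (z i)) : alt z ∈ ratTrivQuot a₁ a₂ n := by
  classical
  have hreg : ∀ s : G, ∑ j, indChar (χ j) 1 * indChar (χ j) s =
      if s = 1 then (Fintype.card G : k) else 0 := by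
    intro s
    split_ifs with h
    · rw [h]; exact htab.1
    · exact htab.2 s h
  obtain ⟨p₁, -⟩ := exists_place (k := k) (K := K₁)
  obtain ⟨p₂, -⟩ := exists_place (k := k) (K := K₂)
  have e₁ := fun j => number' (a := a₁) (χ := χ j) (h₁ j) p₁
  have e₂ := fun j => number' (a := a₂) (χ := (χ j)⁻¹) (fun h => balanced_inv (h₂ j (by
    intro hc
    apply h
    refine MonoidHom.ext fun s => ?_
    rw [MonoidHom.inv_apply, hc, MonoidHom.one_apply, inv_one]))) p₂
  choose c₁ V₁ r₁ using e₁
  choose c₂ V₂ r₂ using e₂
  have hn' : ∑ j, c₁ j * c₂ j < n := by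
    have h1 : ((∑ j, c₁ j * c₂ j : ℕ) : Cardinal.{0}) ≤ pg a₁ a₂ := genus_bound' hreg r₁ r₂
    exact_mod_cast h1.trans_lt hn
  have h3 : ∀ i, ∑ g : G, ((z i).mapDomain Quotient.out).mapDomain (act₂ a₁ a₂ g) =
      pull a₁ a₂ (z i) := by
    intro i
    unfold pull
    apply Finset.sum_congr rfl
    intro g _
    rw [← Finsupp.mapDomain_comp]; rfl
  have hN : (Fintype.card G : k) ≠ 0 := by exact_mod_cast Fintype.card_ne_zero
  have key := voisin_quotient χ (top_of_trivial χ hreg)
    (fun j => indChar (χ j) 1 * (Nat.card (H j) : k)⁻¹) hN
    (fun s => by rw [indChar_coeff, hreg]) p₁ p₂ V₁ V₂ hn'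
    (fun i => (z i).mapDomain Quotient.out)
    (fun i => by rw [h3]; exact (hz i).1) (fun i => by rw [h3]; exact (hz i).2)
  have h4 : (fun i => ((z i).mapDomain Quotient.out).mapDomain (Quotient.mk (orb a₁ a₂))) = z := by
    funext i
    rw [← Finsupp.mapDomain_comp]
    have : (Quotient.mk (orb a₁ a₂) ∘ Quotient.out) = id := by
      funext s; exact Quotient.out_eq s
    rw [this, Finsupp.mapDomain_id]
  rw [h4] at key
  exact key

end Pool.Agent.Results.MP_83b46e_ag.MonomialProductQuotients
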