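import Pool.Agent.H25.VN.N17

/-!
# Voisin's conjecture for quotients of the square of a curve by a group and the exchange

`k` is an algebraically closed field of characteristic zero, `X` is the smooth projective curve with
the function field `K`, and the finite group `G` acts on `X` with a rational quotient `X / G`. The
group `G × ℤ/2` acts on `X × X`: `G` acts diagonally, and `ℤ/2` acts by the exchange of the factors.
Let the irreducible characters of `G` be the trivial character and, each once, the characters induced
by linear characters `χ_r` and `χ_r⁻¹` of subgroups `H_r` (so the order of `G` is odd; for example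
`G` may be any abelian or any nilpotent group of odd order). We prove Voisin's conjecture on
zero-cycles for the surface `S = (X × X) / (G × ℤ/2)` if each `χ_r` is *balanced* on `X`: the branch
points of the `χ_r`-part of the covering `X → X / H_r` exist and can be grouped into pairs with
opposite exponents.

The geometric genus of `S` is only half of that of `(X × X) / G`, so this does not follow from the
theorem for `(X × X) / G`. The proof: the exchange of the factors in the `i`-th copy of `X × X`
replaces a functional of the type `(χ_r⁻¹, χ_r)` by one of the type `(χ_r, χ_r⁻¹)`; since the cycles are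
invariant under the exchange, all functionals can be replaced by functionals whose types
belong to the characters `χ_r` and not to the characters `χ_r⁻¹`.
-/

set_option autoImplicit false

namespace Pool.Agent.Results.MP_83b46e_ag.SquareModExchange

open FF Pool.Agent.Q70.CH Pool.Agent.H25.VN
open Pool.Agent.H25.VO (alt)

section defs

variable {k : Type} [Field k] [CharZero k] {K : Type} [Field K] [Algebra k K] {G : Type} [Group G]
  (a : G →* (K ≃ₐ[k] K))

/-- The points of the surface `S = (X × X) / (G × ℤ/2)`: the orbits of the group generated by the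
diagonal action of `G` and the exchange of the factors on the points of `X × X`. -/
abbrev Surf : Type := Quotient (orbSym a)

/-- The geometric genus of `(X × X) / (G × ℤ/2)`: the dimension of the space of the regular
two-forms on `X × X`, that is, of the elements of `H⁰(X, K_X) ⊗ H⁰(X, K_X)`, which are invariant under
`G` and under the exchange of the factors. -/
noncomputable def pg : Cardinal := Module.rank k (Submodule.span k {w | IsSymInvariant a w})

/-- The pull-back of a zero-cycle on `S` to `X × X`: the orbit of `p` goes to the sum of the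
`g p` and of the `g p` with exchanged coordinates. -/
noncomputable def pull [Fintype G] (z : Surf a →₀ ℚ) : (Place k K × Place k K) →₀ ℚ :=
  ∑ g : G, z.mapDomain (fun s => act₂ a a g s.out) +
    ∑ g : G, z.mapDomain (fun s => (act₂ a a g s.out).swap)

/-- A zero-cycle on `S` is Albanese-trivial if its pull-back to `X × X` is: the push-forwards of the
pull-back by the two projections to `X` are rationally equivalent to zero. -/
def AlbTrivial [Fintype G] (z : Surf a →₀ ℚ) : Prop :=
  (pull a z).mapDomain Prod.fst ∈ ratTriv (curve (k := k) K) ∧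
    (pull a z).mapDomain Prod.snd ∈ ratTriv (curve (k := k) K)

/-- The zero-cycles on `Sⁿ` rationally equivalent to zero: the push-forwards of the zero-cycles on
`(X × X)^n` rationally equivalent to zero. -/
noncomputable def ratTrivQuot (n : ℕ) : Submodule ℚ ((Fin n → Surf a) →₀ ℚ) :=
  (ratTriv (((curve (k := k) K).prod (curve (k := k) K)).pow (Fin n))).map
    (Finsupp.lmapDomain ℚ ℚ fun v i => (Quotient.mk (orbSym a) (v i) : Surf a))

omit [CharZero k] in
/-- The characters of `G` induced by the `χ j` are the irreducible characters of `G`, each occurring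
once; equivalently, `∑_j χ_j^G(1) χ_j^G` is the character of the regular representation. -/
def IsTable [Fintype G] {J : Type} [Fintype J] (H : J → Subgroup G) (χ : ∀ j, H j →* kˣ) : Prop :=
  (∑ j, indChar (χ j) 1 * indChar (χ j) 1 = (Fintype.card G : k)) ∧
    ∀ s : G, s ≠ 1 → ∑ j, indChar (χ j) 1 * indChar (χ j) s = 0

end defs

/-- **Voisin's conjecture for `S = (X × X) / (G × ℤ/2)`**. -/
theorem result {k : Type} [Field k] [CharZero k] [IsAlgClosed k] {K : Type} [Field K]
    [Algebra k K] [IsFF k K] {G : Type} [Group G] [Fintype G] (a : G →* (K ≃ₐ[k] K))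
    (h₀ : ∀ ω ∈ Eigenforms a (1 : G →* kˣ), ω = 0) {R : Type} [Fintype R]
    (H : R → Subgroup G) (χ : ∀ r, H r →* kˣ) (htab : IsTable (SymH H) (SymChar χ))
    (h : ∀ r, Balanced a (χ r)) (n : ℕ) (hn : pg a < n) (z : Fin n → (Surf a →₀ ℚ))
    (hz : ∀ i, AlbTrivial a (z i)) : alt z ∈ ratTrivQuot a n := by
  classical
  have hreg : ∀ s : G, ∑ j, indChar (SymChar χ j) 1 * indChar (SymChar χ j) s =
      if s = 1 then (Fintype.card G : k) else 0 := by
    intro s
    split_ifs with h
    · rw [h]; exact htab.1
    · exact htab.2 s h
  have hne : ∀ r, χ r ≠ 1 := by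
    intro r hr
    refine mackey (SymChar χ) hreg (i := Sum.inl r) (j₀ := Sum.inr (Sum.inr ())) (γ₀ := 1)
      (Or.inl (by simp)) ?_
    intro s h1 h2
    have h3 : SymChar χ (Sum.inl r) ⟨s, h1⟩ = χ r ⟨s, h1⟩ := rfl
    have h4 : SymChar χ (Sum.inr (Sum.inr ())) ⟨(1 : G)⁻¹ * s * 1, h2⟩ = 1 := rfl
    rw [h3, h4, hr]
    rfl
  obtain ⟨p, -⟩ := exists_place (k := k) (K := K)
  have e₁ := fun r => number' (a := a) (χ := χ r) (fun _ => h r) p
  have e₂ := fun r => number' (a := a) (χ := (χ r)⁻¹) (fun _ => balanced_inv (h r)) p
  choose c₁ V₁ r₁ using e₁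
  choose c₂ V₂ r₂ using e₂
  obtain ⟨c₀, V₀, r₀⟩ := number' (a := a) (χ := (1 : (⊤ : Subgroup G) →* kˣ))
    (fun h => absurd rfl h) p
  have hE : Eigenforms (a.comp (⊤ : Subgroup G).subtype) 1 = ⊥ := by
    rw [eq_bot_iff]
    unfold Eigenforms
    rw [Submodule.span_le]
    rintro ω ⟨h1, f, x, hx, hf, rfl⟩
    rw [SetLike.mem_coe, Submodule.mem_bot]
    apply h₀
    exact Submodule.subset_span ⟨h1, f, x, fun g => hx ⟨g, trivial⟩, fun g => hf ⟨g, trivial⟩, rfl⟩
  have hc₀ : c₀ = 0 := by
    rw [hE, rank_bot] at r₀
    have : c₀ ≤ 0 := by exact_mod_cast r₀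
    omega
  subst hc₀
  have hn' : ∑ j, c₁ j * c₂ j < n := by
    have h1 : ((∑ j, c₁ j * c₂ j : ℕ) : Cardinal.{0}) ≤ pg a := genus_sym hreg r₁ r₂
    exact_mod_cast h1.trans_lt hn
  have h3 : ∀ i, symSum a ((z i).mapDomain Quotient.out) = pull a (z i) := by
    intro i
    unfold symSum pull
    rw [Finsupp.mapDomain_finsetSum]
    congr 1
    · apply Finset.sum_congr rfl
      intro g _
      rw [← Finsupp.mapDomain_comp]; rfl
    · apply Finset.sum_congr rfl
      intro g _
      rw [← Finsupp.mapDomain_comp, ← Finsupp.mapDomain_comp]; rfl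
  have hN : (Fintype.card G : k) ≠ 0 := by exact_mod_cast Fintype.card_ne_zero
  have key := voisin_quotient_sym χ hne
    (fun j => indChar (SymChar χ j) 1 * (Nat.card (SymH H j) : k)⁻¹) hN
    (fun s => by rw [indChar_coeff, hreg]) p V₁ V₂ V₀ hn'
    (fun i => (z i).mapDomain Quotient.out)
    (fun i => by rw [h3]; exact (hz i).1)
  have h4 : (fun i => ((z i).mapDomain Quotient.out).mapDomain (Quotient.mk (orbSym a))) = z := by
    funext i
    rw [← Finsupp.mapDomain_comp]
    have : (Quotient.mk (orbSym a) ∘ Quotient.out) = id := by
      funext s; exact Quotient.out_eq s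
    rw [this, Finsupp.mapDomain_id]
  rw [h4] at key
  exact key

end Pool.Agent.Results.MP_83b46e_ag.SquareModExchange
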